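import Pool.Agent.Y171.CE.Stm

set_option autoImplicit false

/-!
# Task CE-EXP: spectral gap gives vertex expansion; monotonicity of the distance
-/

namespace Pool.Agent.Y171.CE


theorem mono_step {G : Type} [Group G] [Fintype G] [DecidableEq G] (μ : G → ℝ)
    (h0 : ∀ g, 0 ≤ μ g) (h1 : ∑ g, μ g = 1) (t : ℕ) : l1 (cpow μ (t + 1)) ≤ l1 (cpow μ t) := by
  have e : cpow μ (t + 1) = fun x => ∑ h : G, cpow μ t h * μ (h⁻¹ * x) := by
    unfold cpow
    rw [Function.iterate_succ_apply']
  have h2 : ∀ x : G, ∑ h : G, μ (h⁻¹ * x) = 1 := by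
    intro x
    rw [← h1]
    exact Fintype.sum_equiv ((Equiv.inv G).trans (Equiv.mulRight x)) _ _ (fun h => rfl)
  have h3 : ∀ h : G, ∑ x : G, μ (h⁻¹ * x) = 1 := by
    intro h
    rw [← h1]
    exact Fintype.sum_equiv (Equiv.mulLeft h⁻¹) _ _ (fun x => rfl)
  obtain ⟨c, hc⟩ : ∃ c : ℝ, c = 1 / (Fintype.card G : ℝ) := ⟨_, rfl⟩
  unfold l1
  rw [e, ← hc]
  calc ∑ x : G, |∑ h : G, cpow μ t h * μ (h⁻¹ * x) - c|
      ≤ ∑ x : G, ∑ h : G, |cpow μ t h - c| * μ (h⁻¹ * x) := by
        apply Finset.sum_le_sum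
        intro x _
        have e2 : ∑ h : G, cpow μ t h * μ (h⁻¹ * x) - c = ∑ h : G, (cpow μ t h - c) * μ (h⁻¹ * x) := by
          simp only [sub_mul]
          rw [Finset.sum_sub_distrib, ← Finset.mul_sum, h2, mul_one]
        rw [e2]
        refine (Finset.abs_sum_le_sum_abs _ _).trans (le_of_eq ?_)
        refine Finset.sum_congr rfl (fun h _ => ?_)
        rw [abs_mul, abs_of_nonneg (h0 _)]
    _ = ∑ h : G, |cpow μ t h - c| := by
        rw [Finset.sum_comm]
        refine Finset.sum_congr rfl (fun h _ => ?_)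
        rw [← Finset.mul_sum, h3, mul_one]

theorem mono : S_MONO := by
  intro G _ _ _ μ h0 h1 s t hst
  induction t, hst using Nat.le_induction with
  | base => exact le_rfl
  | succ t _ ih => exact (mono_step μ h0 h1 t).trans ih

theorem exp : S_EXP := by
  intro G _ _ _ μ S θ h0 h1 _ hS hθ hgap A hA
  obtain ⟨B, hB⟩ : ∃ B, B = Finset.univ.filter (fun y => y ∉ A ∧ ∃ a ∈ A, ∃ s ∈ S, a * s = y) :=
    ⟨_, rfl⟩
  rw [← hB]
  have hn : (0 : ℝ) < Fintype.card G := by exact_mod_cast Fintype.card_pos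
  obtain ⟨n, hn'⟩ : ∃ n : ℝ, n = Fintype.card G := ⟨_, rfl⟩
  obtain ⟨a, ha'⟩ : ∃ a : ℝ, a = A.card := ⟨_, rfl⟩
  have ha0 : 0 ≤ a := by rw [ha']; positivity
  have hA' : 2 * a ≤ n := by rw [ha', hn']; exact_mod_cast hA
  rw [← hn'] at hn
  rw [← ha']
  obtain ⟨g, hg⟩ : ∃ g : G → ℝ, g = fun x => if x ∈ A then 1 else 0 := ⟨_, rfl⟩
  obtain ⟨c, hc⟩ : ∃ c : ℝ, c = a / n := ⟨_, rfl⟩
  have hcn : c * n = a := by rw [hc]; field_simp
  obtain ⟨F, hF⟩ : ∃ F : G → ℝ, F = fun x => g x - c := ⟨_, rfl⟩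
  obtain ⟨Tg, hTg⟩ : ∃ Tg : G → ℝ, Tg = fun x => ∑ s : G, μ s * g (x * s) := ⟨_, rfl⟩
  obtain ⟨TF, hTF⟩ : ∃ TF : G → ℝ, TF = fun x => ∑ s : G, μ s * F (x * s) := ⟨_, rfl⟩
  have hsum_g : ∑ x, g x = a := by
    rw [hg, ha']
    simp
  have hsum_F : ∑ x, F x = 0 := by
    rw [hF]
    simp only [Finset.sum_sub_distrib, hsum_g, Finset.sum_const, Finset.card_univ, nsmul_eq_mul]
    rw [← hn']
    linarith
  have hTFg : ∀ x, TF x = Tg x - c := by
    intro x
    rw [hTF, hTg, hF]
    simp only [mul_sub]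
    rw [Finset.sum_sub_distrib, ← Finset.sum_mul, h1, one_mul]
  have hgap' : ∑ x, (TF x) ^ 2 ≤ θ ^ 2 * ∑ x, (F x) ^ 2 := by
    have := hgap (fun x => (F x : ℂ)) (by rw [← Complex.ofReal_sum, hsum_F, Complex.ofReal_zero])
    have e1 : sq (fun x => (F x : ℂ)) = ∑ x, (F x) ^ 2 := by
      unfold sq
      refine Finset.sum_congr rfl (fun x _ => ?_)
      rw [Complex.norm_real, Real.norm_eq_abs, sq_abs]
    have e2 : sq (T μ (fun x => (F x : ℂ))) = ∑ x, (TF x) ^ 2 := by
      unfold sq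
      refine Finset.sum_congr rfl (fun x _ => ?_)
      have e3 : T μ (fun x => (F x : ℂ)) x = ((TF x : ℝ) : ℂ) := by
        unfold T
        rw [hTF]
        push_cast
        rfl
      rw [e3, Complex.norm_real, Real.norm_eq_abs, sq_abs]
    rw [e1, e2] at this
    exact this
  obtain ⟨Q, hQ⟩ : ∃ Q : ℝ, Q = ∑ x, (F x) ^ 2 := ⟨_, rfl⟩
  rw [← hQ] at hgap'
  have hQ0 : 0 ≤ Q := by rw [hQ]; exact Finset.sum_nonneg (fun x _ => sq_nonneg _)
  have hQa : a / 2 ≤ Q := by
    have e1 : Q = a - 2 * c * a + c ^ 2 * n := by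
      rw [hQ, hF]
      have e2 : ∀ x, (g x - c) ^ 2 = g x - 2 * c * g x + c ^ 2 := by
        intro x
        have : g x * g x = g x := by
          rw [hg]
          by_cases hx : x ∈ A <;> simp [hx]
        linear_combination this
      simp only [e2]
      rw [Finset.sum_add_distrib, Finset.sum_sub_distrib, ← Finset.mul_sum, hsum_g]
      simp only [Finset.sum_const, Finset.card_univ, nsmul_eq_mul]
      rw [← hn']
      ring
    have e3 : c ^ 2 * n = c * a := by rw [pow_two, mul_assoc, hcn]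
    rw [e1, e3]
    have e4 : c ≤ 1 / 2 := by
      rw [hc, div_le_iff₀ hn]; linarith
    have e5 : c * a ≤ 1 / 2 * a := mul_le_mul_of_nonneg_right e4 ha0
    linarith
  have hCS : ∑ x, F x * TF x ≤ θ * Q := by
    have e1 := Finset.sum_mul_sq_le_sq_mul_sq Finset.univ F TF
    rw [← hQ] at e1
    have e2 : (∑ x, F x * TF x) ^ 2 ≤ (θ * Q) ^ 2 := by
      refine e1.trans ?_
      have := mul_le_mul_of_nonneg_left hgap' hQ0
      refine this.trans (le_of_eq (by ring))
    exact (abs_le_of_sq_le_sq' e2 (by positivity)).2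
  -- the form
  have hsum_Tg : ∑ x, Tg x = a := by
    rw [hTg, Finset.sum_comm]
    have e1 : ∀ s : G, ∑ x : G, μ s * g (x * s) = μ s * a := by
      intro s
      rw [← Finset.mul_sum, ← hsum_g]
      congr 1
      exact Fintype.sum_equiv (Equiv.mulRight s) _ _ (fun x => rfl)
    simp only [e1]
    rw [← Finset.sum_mul, h1, one_mul]
  have hform : ∑ x, F x * (F x - TF x) = ∑ x, g x * (g x - Tg x) := by
    have e1 : ∀ x, F x * (F x - TF x) = g x * (g x - Tg x) - c * (g x - Tg x) := by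
      intro x
      rw [hTFg, hF]
      ring
    simp only [e1]
    rw [Finset.sum_sub_distrib, ← Finset.mul_sum, Finset.sum_sub_distrib (f := g), hsum_g, hsum_Tg]
    ring
  have hform2 : ∑ x, g x * (g x - Tg x) ≤ B.card := by
    have e1 : ∀ x, g x * (g x - Tg x) ≤ ∑ s, μ s * (if x * s ∈ B then 1 else 0) := by
      intro x
      by_cases hx : x ∈ A
      · have e2 : g x = 1 := by rw [hg]; simp [hx]
        rw [e2, one_mul, hTg]
        have e3 : (1 : ℝ) - ∑ s, μ s * g (x * s) = ∑ s, μ s * (1 - g (x * s)) := by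
          simp only [mul_sub, mul_one]
          rw [Finset.sum_sub_distrib, h1]
        rw [e3]
        refine Finset.sum_le_sum (fun s _ => ?_)
        by_cases hs : μ s = 0
        · rw [hs]; simp
        · have hsS := hS s hs
          refine mul_le_mul_of_nonneg_left ?_ (h0 s)
          by_cases hxs : x * s ∈ A
          · have : g (x * s) = 1 := by rw [hg]; simp [hxs]
            rw [this]
            split_ifs <;> norm_num
          · have : g (x * s) = 0 := by rw [hg]; simp [hxs]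
            have hb : x * s ∈ B := by
              rw [hB]
              simp only [Finset.mem_filter, Finset.mem_univ, true_and]
              exact ⟨hxs, x, hx, s, hsS, rfl⟩
            rw [this]
            simp [hb]
      · have e2 : g x = 0 := by rw [hg]; simp [hx]
        rw [e2, zero_mul]
        refine Finset.sum_nonneg (fun s _ => mul_nonneg (h0 s) ?_)
        split_ifs <;> norm_num
    calc ∑ x, g x * (g x - Tg x) ≤ ∑ x, ∑ s, μ s * (if x * s ∈ B then 1 else 0) :=
          Finset.sum_le_sum (fun x _ => e1 x)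
      _ = ∑ s, μ s * (B.card : ℝ) := by
          rw [Finset.sum_comm]
          refine Finset.sum_congr rfl (fun s _ => ?_)
          rw [← Finset.mul_sum]
          congr 1
          rw [Fintype.sum_equiv (Equiv.mulRight s) (fun x : G => if x * s ∈ B then (1 : ℝ) else 0)
            (fun y : G => if y ∈ B then (1 : ℝ) else 0) (fun x => rfl)]
          simp
      _ = B.card := by rw [← Finset.sum_mul, h1, one_mul]
  have hfin : (1 - θ) * Q ≤ B.card := by
    have e1 : ∑ x, F x * (F x - TF x) = Q - ∑ x, F x * TF x := by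
      rw [hQ, ← Finset.sum_sub_distrib]
      refine Finset.sum_congr rfl (fun x _ => by ring)
    linarith
  by_cases hθ1 : θ ≤ 1
  · have e1 : (1 - θ) * (a / 2) ≤ (1 - θ) * Q := mul_le_mul_of_nonneg_left hQa (by linarith)
    linarith
  · push Not at hθ1
    have e1 : (1 - θ) / 2 * a ≤ 0 := by
      apply mul_nonpos_of_nonpos_of_nonneg _ ha0
      linarith
    exact e1.trans (by positivity)

end Pool.Agent.Y171.CE
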